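import Pool.Agent.H480Z.AdpProof

set_option autoImplicit false

namespace Pool.Agent.Results.MP_235f01_an.NoUncondSuperADP

open Pool.Agent.H480Z.Adp

/-- No real Banach space with a 1-unconditional Schauder basis has the super alternative
Daugavet property. -/
theorem result (X : Type*) [NormedAddCommGroup X] [NormedSpace ℝ X] [CompleteSpace X]
    (e : SchauderBasis ℝ X) (he : OneUnconditional e) : ¬ SuperADP X :=
  not_superADP e he

end Pool.Agent.Results.MP_235f01_an.NoUncondSuperADP
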